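import Mathlib
import Pool.Agent.H242R3.ES.StmtsK

set_option autoImplicit false
set_option maxHeartbeats 4000000

/-!
Project H242-ES, task K7: linear algebra in Lorentz space of dimension four.
-/

namespace Pool.Agent.H298R3.ES

open Pool.Agent.H242R3.ES

theorem B_comm {D : ℕ} (x y : LV D) : B x y = B y x := by
  unfold B
  simp only [mul_comm]

theorem B_add {D : ℕ} (x y z : LV D) : B z (x + y) = B z x + B z y := by
  unfold B
  simp only [Pi.add_apply, mul_add, Finset.sum_add_distrib]
  ring

theorem B_smul {D : ℕ} (c : ℝ) (x z : LV D) : B z (c • x) = c * B z x := by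
  unfold B
  simp only [Pi.smul_apply, smul_eq_mul]
  rw [mul_sub, Finset.mul_sum]
  congr 1
  · exact Finset.sum_congr rfl fun i _ => by ring
  · ring

theorem B_zero {D : ℕ} (z : LV D) : B z 0 = 0 := by
  unfold B
  simp

/-- linear combinations of four vectors -/
noncomputable def comb (a n p q : LV 3) : (Fin 4 → ℝ) →ₗ[ℝ] LV 3 where
  toFun c := c 0 • a + (c 1 • n + (c 2 • p + c 3 • q))
  map_add' c c' := by
    simp only [Pi.add_apply, add_smul]
    abel
  map_smul' r c := by
    simp only [Pi.smul_apply, smul_eq_mul, RingHom.id_apply, smul_add, mul_smul]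

theorem B_comb (a n p q z : LV 3) (c : Fin 4 → ℝ) :
    B z (comb a n p q c) = c 0 * B z a + (c 1 * B z n + (c 2 * B z p + c 3 * B z q)) := by
  have h : comb a n p q c = c 0 • a + (c 1 • n + (c 2 • p + c 3 • q)) := rfl
  rw [h, B_add, B_add, B_add, B_smul, B_smul, B_smul, B_smul]

theorem core (a n p q x : LV 3) (haa : B a a = 1) (hnn : B n n = 1) (han : B a n = 0)
    (hap : B a p = 0) (haq : B a q = 0) (hnp : B n p = 0) (hnq : B n q = 0) (hpp : B p p = 0)
    (hqq : B q q = 0) (hpq : B p q ≠ 0) :
    B x x * B p q = (B a x ^ 2 + B n x ^ 2) * B p q + 2 * (B p x * B q x) := by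
  have hna : B n a = 0 := by rw [B_comm]; exact han
  have hpa : B p a = 0 := by rw [B_comm]; exact hap
  have hqa : B q a = 0 := by rw [B_comm]; exact haq
  have hpn : B p n = 0 := by rw [B_comm]; exact hnp
  have hqn : B q n = 0 := by rw [B_comm]; exact hnq
  have hqp : B q p = B p q := B_comm _ _
  have e1 : ∀ c, B a (comb a n p q c) = c 0 := by
    intro c
    rw [B_comb, haa, han, hap, haq]
    ring
  have e2 : ∀ c, B n (comb a n p q c) = c 1 := by
    intro c
    rw [B_comb, hna, hnn, hnp, hnq]
    ring
  have e3 : ∀ c, B q (comb a n p q c) = c 2 * B p q := by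
    intro c
    rw [B_comb, hqa, hqn, hqp, hqq]
    ring
  have e4 : ∀ c, B p (comb a n p q c) = c 3 * B p q := by
    intro c
    rw [B_comb, hpa, hpn, hpp]
    ring
  have hinj : Function.Injective (comb a n p q) := by
    rw [← LinearMap.ker_eq_bot, LinearMap.ker_eq_bot']
    intro c hc
    have h1 := e1 c
    have h2 := e2 c
    have h3 := e3 c
    have h4 := e4 c
    rw [hc, B_zero] at h1 h2 h3 h4
    have h3' : c 2 = 0 := by
      rcases mul_eq_zero.mp h3.symm with h | h
      · exact h
      · exact absurd h hpq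
    have h4' : c 3 = 0 := by
      rcases mul_eq_zero.mp h4.symm with h | h
      · exact h
      · exact absurd h hpq
    funext i
    fin_cases i
    · exact h1.symm
    · exact h2.symm
    · exact h3'
    · exact h4'
  have hfin : Module.finrank ℝ (Fin 4 → ℝ) = Module.finrank ℝ (LV 3) := by
    rw [Module.finrank_fintype_fun_eq_card, Module.finrank_fintype_fun_eq_card]
    simp
  have hsurj := (LinearMap.injective_iff_surjective_of_finrank_eq_finrank hfin).mp hinj
  obtain ⟨c, rfl⟩ := hsurj x
  have e5 : B (comb a n p q c) (comb a n p q c) =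
      c 0 * c 0 + (c 1 * c 1 + (c 2 * (c 3 * B p q) + c 3 * (c 2 * B p q))) := by
    rw [B_comb a n p q (comb a n p q c) c, B_comm _ a, B_comm _ n, B_comm _ p, B_comm _ q, e1, e2,
      e3, e4]
  rw [e5, e1, e2, e3, e4]
  ring

theorem t : K7 := by
  intro a n p q x haa hnn han hap haq hnp hnq hpp hqq hpq
  exact core a n p q x haa hnn han hap haq hnp hnq hpp hqq hpq

end Pool.Agent.H298R3.ES
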